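import Pool.Agent.W717.UR.Stm

/-! Project UR: no long local periods. -/

set_option autoImplicit false

namespace Pool.Agent.W591.UR

open Filter Topology Pool.Agent.W717.UR

theorem aper (hB : S_BASIC) (hY : S_BPY) (hC : S_COR) (hE : S_ENG) : S_APER := by
  intro G N e P d hd
  obtain ⟨b1, b2, b3⟩ := hB G N e P
  obtain ⟨K, hK⟩ : ∃ K : ℕ, K = d + 50 := ⟨_, rfl⟩
  obtain ⟨h, hh'⟩ : ∃ h : ℕ, h = hh G N K := ⟨_, rfl⟩
  have hbig : 2 * d + 100 ≤ h := by
    obtain ⟨c1, c2, _⟩ := b1 K
    rw [← hh'] at c2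
    omega
  refine ⟨3 * h + 3, fun n hn => ?_⟩
  obtain ⟨u, v, s1, s2, hu, hv, huv, -, hs2, -, hv2⟩ := hY G N e P K n
  rw [← hh'] at huv hv2
  have hvn : v ≤ n + h + 1 := by
    rcases huv with huv | ⟨huv, -⟩ <;> omega
  have key : ∀ i : ℤ, 0 ≤ i → i < (h : ℤ) - d → bb G N e K i = bb G N e K (i + d) := by
    intro i hi0 hi
    have e1 := hn (v - n + i) (by
      rw [abs_le]
      push_cast
      constructor <;> omega)
    have e2 := hv2 i hi0 (by omega)
    have e3 := hv2 (i + d) (by omega) (by omega)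
    have r1 : n + (v - n + i) = v + i := by ring
    have r2 : n + d + (v - n + i) = v + (i + d) := by ring
    rw [r1, r2, e2, e3] at e1
    rcases hs2 with s | s <;> rw [s] at e1 <;> linarith
  have term : ∀ i ∈ Finset.range h, bb G N e K i * bb G N e K i -
      (if h - d ≤ i then 1 else 0) ≤ bb G N e K i * bb G N e K (i + (d : ℤ)) := by
    intro i hi
    rw [Finset.mem_range] at hi
    split_ifs with hc
    · rw [b3 K (i + (d : ℤ)) (Or.inr (by rw [← hh']; omega))]
      rcases b2 K i with q | q | q <;> rw [q] <;> norm_num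
    · rw [← key i (by omega) (by omega)]
      simp
  have sum1 := Finset.sum_le_sum term
  rw [Finset.sum_sub_distrib] at sum1
  have sum2 : ∑ i ∈ Finset.range h, (if h - d ≤ i then (1 : ℤ) else 0) ≤ d := by
    rw [← Finset.sum_filter, Finset.sum_const, nsmul_eq_mul, mul_one]
    have : (Finset.range h).filter (fun i => h - d ≤ i) ⊆ Finset.Ico (h - d) h := by
      intro i hi
      rw [Finset.mem_filter, Finset.mem_range] at hi
      rw [Finset.mem_Ico]
      exact ⟨hi.2, hi.1⟩
    have c := Finset.card_le_card this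
    rw [Nat.card_Ico] at c
    have : h - (h - d) ≤ d := by omega
    exact_mod_cast c.trans this
  have eng := hE G N e P K
  have h0 : hh G N 0 = 1 := rfl
  have cor := hC G N e P 0 K d (by
    rw [h0, abs_of_nonneg (by positivity)]
    exact_mod_cast hd)
  have cor' := (abs_le.1 cor).2
  have s3 : ((∑ i ∈ Finset.range h, bb G N e K i * bb G N e K i : ℤ) : ℝ) - d ≤
      ((∑ i ∈ Finset.range h, bb G N e K i * bb G N e K (i + (d : ℤ)) : ℤ) : ℝ) := by
    have : (∑ i ∈ Finset.range h, bb G N e K i * bb G N e K i : ℤ) - d ≤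
      (∑ i ∈ Finset.range h, bb G N e K i * bb G N e K (i + (d : ℤ)) : ℤ) := by linarith
    exact_mod_cast this
  have hbR : (2 * d + 100 : ℝ) ≤ h := by exact_mod_cast hbig
  have hd0 : (0 : ℝ) ≤ d := by positivity
  rw [← hh'] at eng cor'
  rw [pow_zero, mul_one] at cor'
  linarith

end Pool.Agent.W591.UR
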